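import Pool.Agent.Y748.SR.Stm

/-!
The masses of two sites.
-/

set_option autoImplicit false

open Finset Filter Topology MeasureTheory

namespace Pool.Agent.Y38.SR

open Pool.Agent.Y748.SR

theorem pw_empty {X : Type} [DecidableEq X] (f : Finset X → ℝ) (C : Finset X) (w : X → ℝ) :
    PW f C ∅ w = f C := by
  simp [PW]

theorem hh_pair {X : Type} (g : Finset X → Finset ℤ → ℝ) (A : Finset X) {m n : ℤ} (hmn : m ≠ n)
    (y : ℤ → ℝ) :
    hh g A ∅ {m, n} y = g A ∅ * (y m * y n) + g A {m} * ((1 - y m) * y n) +
      g A {n} * (y m * (1 - y n)) + g A {m, n} * ((1 - y m) * (1 - y n)) := by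
  unfold hh
  have hp : ({m, n} : Finset ℤ).powerset = {∅, {m}, {n}, {m, n}} := by
    ext S
    simp only [Finset.mem_powerset, Finset.mem_insert, Finset.mem_singleton]
    constructor
    · intro h
      by_cases h1 : m ∈ S <;> by_cases h2 : n ∈ S
      · right; right; right
        ext k
        constructor
        · exact fun hk => h hk
        · intro hk
          rcases Finset.mem_insert.mp hk with rfl | hk
          · exact h1
          · rw [Finset.mem_singleton.mp hk]
            exact h2
      · right; left
        ext k
        constructor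
        · intro hk
          rcases Finset.mem_insert.mp (h hk) with rfl | hk'
          · exact Finset.mem_singleton_self _
          · rw [Finset.mem_singleton.mp hk'] at hk
            exact absurd hk h2
        · intro hk
          rw [Finset.mem_singleton.mp hk]
          exact h1
      · right; right; left
        ext k
        constructor
        · intro hk
          rcases Finset.mem_insert.mp (h hk) with rfl | hk'
          · exact absurd hk h1
          · exact hk'
        · intro hk
          rw [Finset.mem_singleton.mp hk]
          exact h2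
      · left
        ext k
        simp only [Finset.notMem_empty, iff_false]
        intro hk
        rcases Finset.mem_insert.mp (h hk) with rfl | hk'
        · exact h1 hk
        · rw [Finset.mem_singleton.mp hk'] at hk
          exact h2 hk
    · rintro (rfl | rfl | rfl | rfl)
      · exact Finset.empty_subset _
      · intro k hk
        rw [Finset.mem_singleton.mp hk]
        exact Finset.mem_insert_self _ _
      · intro k hk
        rw [Finset.mem_singleton.mp hk]
        exact Finset.mem_insert_of_mem (Finset.mem_singleton_self _)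
      · exact Finset.Subset.refl _
  have d1 : ({m, n} : Finset ℤ) \ {m} = {n} := by
    ext k
    simp only [Finset.mem_sdiff, Finset.mem_insert, Finset.mem_singleton]
    constructor
    · rintro ⟨h1 | h1, h2⟩
      · exact absurd h1 h2
      · exact h1
    · intro h1
      exact ⟨Or.inr h1, fun h => hmn (h.symm.trans h1)⟩
  have d2 : ({m, n} : Finset ℤ) \ {n} = {m} := by
    ext k
    simp only [Finset.mem_sdiff, Finset.mem_insert, Finset.mem_singleton]
    constructor
    · rintro ⟨h1 | h1, h2⟩
      · exact h1
      · exact absurd h1 h2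
    · intro h1
      exact ⟨Or.inl h1, fun h => hmn (h1.symm.trans h)⟩
  have n1 : (∅ : Finset ℤ) ∉ ({{m}, {n}, {m, n}} : Finset (Finset ℤ)) := by
    intro h
    simp only [Finset.mem_insert, Finset.mem_singleton] at h
    rcases h with h | h | h
    · exact absurd h.symm (Finset.singleton_ne_empty m)
    · exact absurd h.symm (Finset.singleton_ne_empty n)
    · exact absurd h.symm (Finset.insert_ne_empty m {n})
  have n2 : ({m} : Finset ℤ) ∉ ({{n}, {m, n}} : Finset (Finset ℤ)) := by
    intro h
    simp only [Finset.mem_insert, Finset.mem_singleton] at h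
    rcases h with h | h
    · exact hmn (Finset.singleton_injective h)
    · have : n ∈ ({m} : Finset ℤ) := by rw [h]; simp
      exact hmn (Finset.mem_singleton.mp this).symm
  have n3 : ({n} : Finset ℤ) ∉ ({{m, n}} : Finset (Finset ℤ)) := by
    intro h
    rw [Finset.mem_singleton] at h
    have : m ∈ ({n} : Finset ℤ) := by rw [h]; simp
    exact hmn (Finset.mem_singleton.mp this)
  rw [hp, Finset.sum_insert n1, Finset.sum_insert n2, Finset.sum_insert n3, Finset.sum_singleton]
  rw [d1, d2, Finset.sdiff_self, Finset.sdiff_empty]
  rw [Finset.prod_pair hmn, Finset.prod_pair hmn]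
  simp only [Finset.empty_union, Finset.prod_empty, Finset.prod_singleton, one_mul, mul_one]
  ring

theorem e_pair {X : Type} {g : Finset X → Finset ℤ → ℝ} {A : Finset X} {e : Finset ℤ → ℝ}
    (hH : Hol g A e) (hA : A.card = 2) {m n : ℤ} (hmn : m ≠ n) :
    e {m, n} = g A ∅ - g A {m} - g A {n} + g A {m, n} := by
  have h1 := (((hH.sum ∅).sub (hH.sum {m})).sub (hH.sum {n})).add (hH.sum {m, n})
  have h2 : HasSum (fun T : Finset ℤ => if T = {m, n} then e {m, n} else 0) (e {m, n}) :=
    hasSum_ite_eq _ _
  refine h2.unique (h1.congr_fun ?_)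
  intro T
  by_cases hT : T.card = A.card
  · rw [hA] at hT
    by_cases h3 : m ∈ T <;> by_cases h4 : n ∈ T
    · have hTe : T = {m, n} := by
        symm
        refine Finset.eq_of_subset_of_card_le ?_ ?_
        · intro k hk
          rcases Finset.mem_insert.mp hk with rfl | hk
          · exact h3
          · rw [Finset.mem_singleton.mp hk]
            exact h4
        · rw [hT, Finset.card_pair hmn]
      have a1 : ¬ Disjoint T {m} := by
        rw [Finset.disjoint_singleton_right]; exact not_not.mpr h3
      have a2 : ¬ Disjoint T {n} := by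
        rw [Finset.disjoint_singleton_right]; exact not_not.mpr h4
      have a3 : ¬ Disjoint T {m, n} := by
        intro h
        exact a1 (Finset.disjoint_of_subset_right (by simp) h)
      simp only [Finset.disjoint_empty_right, if_true, if_neg a1, if_neg a2, if_neg a3]
      rw [if_pos hTe, hTe]
      ring
    · have hTe : T ≠ {m, n} := by
        rintro rfl
        exact h4 (by simp)
      have a1 : ¬ Disjoint T {m} := by
        rw [Finset.disjoint_singleton_right]; exact not_not.mpr h3
      have a2 : Disjoint T {n} := Finset.disjoint_singleton_right.mpr h4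
      have a3 : ¬ Disjoint T {m, n} := by
        intro h
        exact a1 (Finset.disjoint_of_subset_right (by simp) h)
      simp only [Finset.disjoint_empty_right, if_true, if_neg a1, if_pos a2, if_neg a3, if_neg hTe]
      ring
    · have hTe : T ≠ {m, n} := by
        rintro rfl
        exact h3 (by simp)
      have a1 : Disjoint T {m} := Finset.disjoint_singleton_right.mpr h3
      have a2 : ¬ Disjoint T {n} := by
        rw [Finset.disjoint_singleton_right]; exact not_not.mpr h4
      have a3 : ¬ Disjoint T {m, n} := by
        intro h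
        exact a2 (Finset.disjoint_of_subset_right (by simp) h)
      simp only [Finset.disjoint_empty_right, if_true, if_pos a1, if_neg a2, if_neg a3, if_neg hTe]
      ring
    · have hTe : T ≠ {m, n} := by
        rintro rfl
        exact h3 (by simp)
      have a1 : Disjoint T {m} := Finset.disjoint_singleton_right.mpr h3
      have a2 : Disjoint T {n} := Finset.disjoint_singleton_right.mpr h4
      have a3 : Disjoint T {m, n} := by
        rw [Finset.disjoint_insert_right]
        exact ⟨h3, a2⟩
      simp only [Finset.disjoint_empty_right, if_true, if_pos a1, if_pos a2, if_pos a3, if_neg hTe]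
      ring
  · have h0 := hH.supp T hT
    have hTe : T ≠ {m, n} := by
      rintro rfl
      exact hT (by rw [hA, Finset.card_pair hmn])
    rw [if_neg hTe]
    simp [h0]

theorem t_PAIR : S_PAIR := by
  intro X _ g a hS x x' hxx s v hs hv hv2 hg2 hg3 e hH m n hmn
  have hE := e_pair hH (Finset.card_pair hxx) hmn
  rw [hg2, hg3 m, hg3 n] at hE
  set E := e {m, n} with hEdef
  have key : ∀ l u : ℝ, 0 ≤ (s + v m * l + v n * u) ^ 2 +
      ((a x m * a x' n + a x n * a x' m - E) - 2 * (v m * v n)) * (l * u) := by
    intro l u
    let y : ℤ → ℝ := fun k => if k = m then 1 + l else 1 + u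
    have ym : y m = 1 + l := by simp [y]
    have yn : y n = 1 + u := by simp [y, hmn.symm]
    have hr := hS.ray ∅ {m, n} y (Finset.disjoint_empty_left _) ∅ ∅ x x' (fun _ => 0) hxx
      (Finset.notMem_empty _) (Finset.notMem_empty _) (Finset.notMem_empty _)
      (Finset.notMem_empty _) (Finset.disjoint_empty_left _)
    unfold RayI at hr
    simp only [pw_empty] at hr
    have hx : ∀ z : X, (insert z (∅ : Finset X)) = {z} := fun z => rfl
    have e1 : hh g ∅ ∅ {m, n} y = 1 := by
      rw [hh_pair g ∅ hmn, hS.lat, hS.lat, hS.lat, hS.lat]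
      ring
    have e2 : ∀ z : X, hh g {z} ∅ {m, n} y = 1 + l * a z m + u * a z n := by
      intro z
      rw [hh_pair g {z} hmn, hS.one, hS.one, hS.one, hS.one, Finset.sum_empty,
        Finset.sum_singleton, Finset.sum_singleton, Finset.sum_pair hmn, ym, yn]
      ring
    rw [hx x, hx x', e1, e2 x, e2 x', hh_pair g _ hmn, ym, yn] at hr
    have hset : (insert x {x'} : Finset X) = {x, x'} := rfl
    rw [hset, hg2, hg3 m, hg3 n] at hr
    have hm2 := hv2 m
    have hn2 := hv2 n
    have hg4 : g {x, x'} {m, n} = E - (1 - s ^ 2) + (1 - a x m - a x' m - s ^ 2 + 2 * s * v m) +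
        (1 - a x n - a x' n - s ^ 2 + 2 * s * v n) := by linarith
    rw [hg4] at hr
    have hid : (s + v m * l + v n * u) ^ 2 +
      ((a x m * a x' n + a x n * a x' m - E) - 2 * (v m * v n)) * (l * u) =
      (1 + l * a x m + u * a x n) * (1 + l * a x' m + u * a x' n) - 1 *
      ((1 - s ^ 2) * ((1 + l) * (1 + u)) +
        (1 - a x m - a x' m - s ^ 2 + 2 * s * v m) * ((1 - (1 + l)) * (1 + u)) +
          (1 - a x n - a x' n - s ^ 2 + 2 * s * v n) * ((1 + l) * (1 - (1 + u))) +
        (E - (1 - s ^ 2) + (1 - a x m - a x' m - s ^ 2 + 2 * s * v m) +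
          (1 - a x n - a x' n - s ^ 2 + 2 * s * v n)) *
          ((1 - (1 + l)) * (1 - (1 + u)))) := by
      linear_combination (l ^ 2) * hm2 + (u ^ 2) * hn2
    rw [hid]
    linarith
  have hvv : v m * v n ≠ 0 := mul_ne_zero (hv m) (hv n)
  set D := (a x m * a x' n + a x n * a x' m - E) - 2 * (v m * v n) with hD
  have k1 := key (-s / v m * (1 / 2)) (-s / v n * (1 / 2))
  have k2 := key (-s / v m * 2) (-s / v n * (-1))
  have hvm := hv m
  have hvn := hv n
  have z1 : s + v m * (-s / v m * (1 / 2)) + v n * (-s / v n * (1 / 2)) = 0 := by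
    field_simp
    ring
  have z2 : s + v m * (-s / v m * 2) + v n * (-s / v n * (-1)) = 0 := by
    field_simp
    ring
  rw [z1] at k1
  rw [z2] at k2
  have w1 : -s / v m * (1 / 2) * (-s / v n * (1 / 2)) = (s ^ 2 / (v m * v n)) / 4 := by
    field_simp
    norm_num
  have w2 : -s / v m * 2 * (-s / v n * (-1)) = -2 * (s ^ 2 / (v m * v n)) := by
    field_simp
  rw [w1] at k1
  rw [w2] at k2
  have hq : s ^ 2 / (v m * v n) ≠ 0 := div_ne_zero (pow_ne_zero 2 hs) hvv
  have hprod : D * (s ^ 2 / (v m * v n)) = 0 := by
    apply le_antisymm
    · nlinarith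
    · nlinarith
  have hD0 : D = 0 := by
    rcases mul_eq_zero.mp hprod with h | h
    · exact h
    · exact absurd h hq
  rw [hD] at hD0
  linarith

end Pool.Agent.Y38.SR
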