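import Pool.Agent.Y748.SR.Stm

/-!
The number of holes.
-/

set_option autoImplicit false

open Finset Filter Topology MeasureTheory

namespace Pool.Agent.Y38.SR

open Pool.Agent.Y748.SR

theorem t_SUM2 : S_SUM2 := by
  intro X g A e hH
  have hfin : ∀ T : Finset ℤ, HasSum (fun n : ℤ => if n ∈ T then e T else 0) (A.card * e T) := by
    intro T
    have h1 : HasSum (fun n : ℤ => if n ∈ T then e T else 0)
        (∑ n ∈ T, if n ∈ T then e T else 0) :=
      hasSum_sum_of_ne_finset_zero (fun n hn => by rw [if_neg hn])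
    have h2 : (∑ n ∈ T, if n ∈ T then e T else 0) = A.card * e T := by
      rw [Finset.sum_congr rfl (fun n hn => if_pos hn), Finset.sum_const, nsmul_eq_mul]
      by_cases hc : T.card = A.card
      · rw [hc]
      · rw [hH.supp T hc, mul_zero, mul_zero]
    rwa [h2] at h1
  have hcol : ∀ n : ℤ, HasSum (fun T : Finset ℤ => if n ∈ T then e T else 0)
      (g A ∅ - g A {n}) := by
    intro n
    have h1 := (hH.sum ∅).sub (hH.sum {n})
    have hfun : (fun T : Finset ℤ => if n ∈ T then e T else 0) = fun T : Finset ℤ =>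
        (if Disjoint T ∅ then e T else 0) - (if Disjoint T {n} then e T else 0) := by
      funext T
      by_cases hn : n ∈ T
      · have h2 : ¬ Disjoint T {n} := by
          rw [Finset.disjoint_singleton_right]
          exact not_not.mpr hn
        rw [if_pos hn, if_pos (Finset.disjoint_empty_right T), if_neg h2, sub_zero]
      · have h2 : Disjoint T {n} := Finset.disjoint_singleton_right.mpr hn
        rw [if_neg hn, if_pos (Finset.disjoint_empty_right T), if_pos h2, sub_self]
    rw [hfun]
    exact h1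
  have htot : HasSum (fun T : Finset ℤ => (A.card : ℝ) * e T) (A.card * g A ∅) := by
    have h1 := (hH.sum ∅).mul_left (A.card : ℝ)
    simpa using h1
  have hnn : 0 ≤ fun p : Finset ℤ × ℤ => if p.2 ∈ p.1 then e p.1 else 0 := by
    intro p
    dsimp only
    split_ifs
    · exact hH.nonneg _
    · exact le_rfl
  have hts : (fun T : Finset ℤ => ∑' n : ℤ, if n ∈ T then e T else 0) =
      fun T => (A.card : ℝ) * e T := by
    funext T
    exact (hfin T).tsum_eq
  have hs2 : Summable fun T : Finset ℤ => ∑' n : ℤ, if n ∈ T then e T else 0 := by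
    rw [hts]
    exact htot.summable
  have hsum : Summable fun p : Finset ℤ × ℤ => if p.2 ∈ p.1 then e p.1 else 0 :=
    (summable_prod_of_nonneg hnn).mpr (And.intro (fun T => (hfin T).summable) hs2)
  obtain ⟨c, hc⟩ := hsum
  have h2 : HasSum (fun T : Finset ℤ => (A.card : ℝ) * e T) c :=
    HasSum.prod_fiberwise (f := fun p : Finset ℤ × ℤ => if p.2 ∈ p.1 then e p.1 else 0) hc hfin
  have h3 : c = A.card * g A ∅ := h2.unique htot
  rw [h3] at hc
  have h4 : HasSum ((fun p : Finset ℤ × ℤ => if p.2 ∈ p.1 then e p.1 else 0) ∘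
      Equiv.prodComm ℤ (Finset ℤ)) (A.card * g A ∅) :=
    (Equiv.prodComm ℤ (Finset ℤ)).hasSum_iff.mpr hc
  exact HasSum.prod_fiberwise (f := (fun p : Finset ℤ × ℤ => if p.2 ∈ p.1 then e p.1 else 0) ∘
      Equiv.prodComm ℤ (Finset ℤ)) h4 hcol

end Pool.Agent.Y38.SR
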